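import Mathlib

/-!
# Base polyhedra with vertices in {0,1,-1}^n: a combinatorial core and basic lemmas (helper54)
-/

set_option autoImplicit false
set_option linter.unusedVariables false

open Finset

namespace Pool.Agent.TH54.FK

variable {V : Type*} [DecidableEq V] [Fintype V]

/-- a crossing family in which any two disjoint pairs are separated -/
structure Cr (T : Finset V → Prop) : Prop where
  sg : ∀ a u : V, a ≠ u → T ({a} : Finset V)
  co : ∀ a u : V, a ≠ u → T ({a} : Finset V)ᶜ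
  cross : ∀ X Y : Finset V, T X → T Y → (∃ w, w ∈ X ∧ w ∈ Y) → (∃ w, w ∉ X ∧ w ∉ Y) →
    T (X ∩ Y) ∧ T (X ∪ Y)
  sep : ∀ a c b d : V, a ≠ c → b ≠ d → a ≠ b → a ≠ d → c ≠ b → c ≠ d →
    (∃ X, T X ∧ a ∈ X ∧ c ∈ X ∧ b ∉ X ∧ d ∉ X) ∨ (∃ X, T X ∧ b ∈ X ∧ d ∈ X ∧ a ∉ X ∧ c ∉ X)

/-- `p` and `q` are not separated by a member of the family containing `a` but not `b` -/
def Ins (T : Finset V → Prop) (a b p q : V) : Prop :=
  ∀ X, T X → a ∈ X → b ∉ X → (p ∈ X ↔ q ∈ X)

lemma Cr.inter {T : Finset V → Prop} (h : Cr T) {X Y : Finset V} (hX : T X) (hY : T Y) {w z : V}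
    (h1 : w ∈ X) (h2 : w ∈ Y) (h3 : z ∉ X) (h4 : z ∉ Y) : T (X ∩ Y) :=
  (h.cross X Y hX hY ⟨w, h1, h2⟩ ⟨z, h3, h4⟩).1

lemma Cr.union {T : Finset V → Prop} (h : Cr T) {X Y : Finset V} (hX : T X) (hY : T Y) {w z : V}
    (h1 : w ∈ X) (h2 : w ∈ Y) (h3 : z ∉ X) (h4 : z ∉ Y) : T (X ∪ Y) :=
  (h.cross X Y hX hY ⟨w, h1, h2⟩ ⟨z, h3, h4⟩).2

/-- first separation lemma -/
lemma sep1 {T : Finset V → Prop} (h : Cr T) {a b u v p : V} (hab : a ≠ b) (hua : u ≠ a)
    (hub : u ≠ b) (hva : v ≠ a) (hvb : v ≠ b) (huv : u ≠ v) (hI : Ins T a b u v)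
    (hpa : p ≠ a) (hpb : p ≠ b) (hpu : p ≠ u) :
    ∃ X, T X ∧ b ∈ X ∧ u ∈ X ∧ a ∉ X ∧ p ∉ X := by
  obtain ⟨Xu, hXu, hXub, hXuu, hXua, hXuv⟩ : ∃ X, T X ∧ b ∈ X ∧ u ∈ X ∧ a ∉ X ∧ v ∉ X := by
    rcases h.sep a v b u hva.symm hub.symm hab hua.symm hvb huv.symm with
      ⟨X, h1, h2, h3, h4, h5⟩ | ⟨X, h1, h2, h3, h4, h5⟩
    · exact absurd ((hI X h1 h2 h4).2 h3) h5
    · exact ⟨X, h1, h2, h3, h4, h5⟩
  by_cases hpv : p = v
  · subst hpv; exact ⟨Xu, hXu, hXub, hXuu, hXua, hXuv⟩
  rcases h.sep a p b u hpa.symm hub.symm hab hua.symm hpb hpu with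
      ⟨R, h1, h2, h3, h4, h5⟩ | ⟨X, h1, h2, h3, h4, h5⟩
  · have h6 : v ∉ R := fun hv => h5 ((hI R h1 h2 h4).2 hv)
    rcases h.sep u b v p hub (Ne.symm hpv) huv hpu.symm hvb.symm hpb.symm with
      ⟨X, g1, g2, g3, g4, g5⟩ | ⟨X, g1, g2, g3, g4, g5⟩
    · by_cases haX : a ∈ X
      · refine ⟨X ∩ Xu, h.inter g1 hXu g3 hXub g4 hXuv, ?_, ?_, ?_, ?_⟩ <;> simp_all
      · exact ⟨X, g1, g3, g2, haX, g5⟩
    · by_cases haX : a ∈ X
      · exact absurd ((hI X g1 haX g5).2 g2) g4
      · have hT := h.union h1 g1 h3 g3 h5 g4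
        have := (hI (R ∪ X) hT (by simp [h2]) (by simp [h4, g5])).2 (by simp [g2])
        simp [h5, g4] at this
  · exact ⟨X, h1, h2, h3, h4, h5⟩

lemma pair_mem {T : Finset V → Prop} (h : Cr T) {a b u v : V} (hab : a ≠ b) (hua : u ≠ a)
    (hub : u ≠ b) (hva : v ≠ a) (hvb : v ≠ b) (huv : u ≠ v) (hI : Ins T a b u v) :
    T {b, u} := by
  have key : ∀ S : Finset V, (∀ p ∈ S, p ≠ a ∧ p ≠ b ∧ p ≠ u) →
      ∃ X, T X ∧ b ∈ X ∧ u ∈ X ∧ a ∉ X ∧ ∀ p ∈ S, p ∉ X := by
    intro S
    induction S using Finset.induction_on with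
    | empty =>
      intro _
      exact ⟨{a}ᶜ, h.co a b hab, by simp [hab.symm], by simp [hua], by simp, by simp⟩
    | insert p S hp ih =>
      intro hS
      obtain ⟨X, h1, h2, h3, h4, h5⟩ := ih (fun q hq => hS q (mem_insert_of_mem hq))
      obtain ⟨k1, k2, k3⟩ := hS p (mem_insert_self p S)
      obtain ⟨Y, g1, g2, g3, g4, g5⟩ := sep1 h hab hua hub hva hvb huv hI k1 k2 k3
      refine ⟨X ∩ Y, h.inter h1 g1 h2 g2 h4 g4, by simp [h2, g2], by simp [h3, g3],
        by simp [h4], ?_⟩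
      intro q hq
      rcases mem_insert.1 hq with rfl | hq
      · simp [g5]
      · simp [h5 q hq]
  obtain ⟨X, h1, h2, h3, h4, h5⟩ := key (univ.filter (fun p => p ≠ a ∧ p ≠ b ∧ p ≠ u))
    (by simp)
  have : X = {b, u} := by
    ext p
    simp only [mem_insert, mem_singleton]
    constructor
    · intro hp
      by_contra hc
      push Not at hc
      exact h5 p (by simp only [mem_filter, mem_univ, true_and]; exact ⟨fun e => h4 (e ▸ hp), hc.1, hc.2⟩) hp
    · rintro (rfl | rfl) <;> assumption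
  rwa [this] at h1

lemma Cr.dual {T : Finset V → Prop} (h : Cr T) :
    Cr (fun X => T Xᶜ) := by
  refine ⟨fun a u hau => h.co a u hau, ?_, ?_, ?_⟩
  · intro a u hau
    simpa using h.sg a u hau
  · intro X Y hX hY hw hz
    obtain ⟨w, hw1, hw2⟩ := hw
    obtain ⟨z, hz1, hz2⟩ := hz
    have := h.cross Xᶜ Yᶜ hX hY ⟨z, by simp [hz1], by simp [hz2]⟩ ⟨w, by simp [hw1], by simp [hw2]⟩
    rw [← compl_union, ← compl_inter] at this
    exact ⟨this.2, this.1⟩
  · intro a c b d h1 h2 h3 h4 h5 h6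
    rcases h.sep a c b d h1 h2 h3 h4 h5 h6 with ⟨X, g1, g2, g3, g4, g5⟩ | ⟨X, g1, g2, g3, g4, g5⟩
    · right; exact ⟨Xᶜ, by simpa using g1, by simpa using g4, by simpa using g5, by simpa using g2,
        by simpa using g3⟩
    · left; exact ⟨Xᶜ, by simpa using g1, by simpa using g4, by simpa using g5, by simpa using g2,
        by simpa using g3⟩

lemma Ins.dual {T : Finset V → Prop} {a b p q : V} (hI : Ins T a b p q) :
    Ins (fun X => T Xᶜ) b a p q := by
  intro X hX hb ha
  have := hI Xᶜ hX (by simpa using ha) (by simpa using hb)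
  simp only [mem_compl] at this
  tauto

lemma Ins.undual {T : Finset V → Prop} {a b p q : V} (hI : Ins (fun X => T Xᶜ) b a p q) :
    Ins T a b p q := by
  intro X hX ha hb
  have := hI Xᶜ (by simpa using hX) (by simpa using hb) (by simpa using ha)
  simp only [mem_compl] at this
  tauto

/-- the obstruction to replacing `b` by `u` -/
def Bad (T : Finset V → Prop) (a b u q : V) : Prop :=
  q ≠ a ∧ q ≠ b ∧ q ≠ u ∧ (∃ X, T X ∧ a ∈ X ∧ u ∈ X ∧ b ∉ X ∧ q ∉ X) ∧
    Ins T a u b q

/-- a newly inseparable pair produces an obstruction -/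
lemma bad_of_new {T : Finset V → Prop} (h : Cr T) {a b u v p q : V} (hab : a ≠ b) (hua : u ≠ a)
    (hub : u ≠ b) (hva : v ≠ a) (hvb : v ≠ b) (huv : u ≠ v) (hI : Ins T a b u v)
    (hpa : p ≠ a) (hpb : p ≠ b) (hpu : p ≠ u) (hqa : q ≠ a) (hqb : q ≠ b) (hqu : q ≠ u)
    (hpq : p ≠ q) (hN : Ins T a u p q) {X₀ : Finset V} (hX₀ : T X₀) (haX : a ∈ X₀) (hbX : b ∉ X₀)
    (hpX : p ∈ X₀) (hqX : q ∉ X₀) : Bad T a b u q := by
  have huX : u ∈ X₀ := by
    by_contra hc
    exact hqX ((hN X₀ hX₀ haX hc).1 hpX)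
  have hvX : v ∈ X₀ := (hI X₀ hX₀ haX hbX).1 huX
  have hqv : q ≠ v := fun e => hqX (e ▸ hvX)
  refine ⟨hqa, hqb, hqu, ⟨X₀, hX₀, haX, huX, hbX, hqX⟩, ?_⟩
  have hT2 : T {b, v} := pair_mem h hab hva hvb hua hub huv.symm
    (fun X h1 h2 h3 => (hI X h1 h2 h3).symm)
  -- no set contains `a, q` and misses `u, b`
  have no1 : ∀ R, T R → a ∈ R → q ∈ R → u ∉ R → b ∉ R → False := by
    intro R h1 h2 h3 h4 h5
    have hp : p ∈ R := (hN R h1 h2 h4).2 h3
    have hT := h.inter h1 hX₀ h2 haX h5 hbX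
    have := (hN (R ∩ X₀) hT (by simp [h2, haX]) (by simp [h4])).1 (by simp [hp, hpX])
    simp [hqX] at this
  -- no set contains `a, b` and misses `u, q`
  have no2 : ∀ R, T R → a ∈ R → b ∈ R → u ∉ R → q ∉ R → False := by
    intro R' k1 k2 k3 k4 k5
    -- enlarge by `v`
    obtain ⟨R, h1, h2, h3, h4, h5, h6⟩ : ∃ R, T R ∧ a ∈ R ∧ b ∈ R ∧ u ∉ R ∧ q ∉ R ∧ v ∈ R := by
      refine ⟨R' ∪ {b, v}, h.union k1 hT2 k3 (by simp) k4 (by simp [hub, huv]), by simp [k2],
        by simp, by simp [k4, hub, huv], by simp [k5, hqb, hqv], by simp⟩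
    have hpR : p ∉ R := fun hp => h5 ((hN R h1 h2 h4).1 hp)
    have hpv : p ≠ v := fun e => hpR (e ▸ h6)
    rcases h.sep a p v q hpa.symm hqv.symm hva.symm hqa.symm hpv hpq with
      ⟨S, g1, g2, g3, g4, g5⟩ | ⟨S, g1, g2, g3, g4, g5⟩
    · have hT := h.inter g1 hX₀ g2 haX g5 hqX
      have hu : u ∈ S := by
        by_contra hc
        exact g5 ((hN S g1 g2 hc).1 g3)
      have := (hI (S ∩ X₀) hT (by simp [g2, haX]) (by simp [hbX])).1 (by simp [hu, huX])
      simp [g4] at this
    · -- `S` contains `v, q` and misses `a, p`; remove `u`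
      have hT3 : T ({a, u} : Finset V)ᶜ := by
        exact pair_mem h.dual (a := b) (b := a) (u := u) (v := v)
          hab.symm hub hua hvb hva huv hI.dual
      have hS' : T (S ∩ ({a, u} : Finset V)ᶜ) :=
        h.inter g1 hT3 g3 (by simp [hqa, hqu]) g4 (by simp)
      have hU := h.union h1 hS' h6 (by simp [g2, hva, huv.symm]) hpR (by simp [g5])
      have := (hN _ hU (by simp [h2]) (by simp [h4])).2 (by simp [g3, hqa, hqu])
      simp [hpR, g5] at this
  intro R h1 h2 h3
  constructor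
  · intro hb
    by_contra hq
    exact no2 R h1 h2 hb h3 hq
  · intro hq
    by_contra hb
    exact no1 R h1 h2 hq h3 hb

lemma other_side {T : Finset V → Prop} (h : Cr T) {a b u v q : V} (hab : a ≠ b) (hua : u ≠ a)
    (hub : u ≠ b) (hva : v ≠ a) (hvb : v ≠ b) (huv : u ≠ v) (hI : Ins T a b u v)
    (hB : Bad T a b u q) : ∃ Z, T Z ∧ u ∈ Z ∧ v ∈ Z ∧ a ∉ Z ∧ b ∉ Z := by
  obtain ⟨hqa, hqb, hqu, ⟨X₀, hX₀, haX, huX, hbX, hqX⟩, hN⟩ := hB
  have hvX : v ∈ X₀ := (hI X₀ hX₀ haX hbX).1 huX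
  have hqv : q ≠ v := fun e => hqX (e ▸ hvX)
  rcases h.sep a b u v hab huv hua.symm hva.symm hub.symm hvb.symm with
    ⟨Z, z1, z2, z3, z4, z5⟩ | ⟨Z, z1, z2, z3, z4, z5⟩
  · obtain ⟨X, x1, x2, x3, x4, x5⟩ : ∃ X, T X ∧ u ∈ X ∧ q ∈ X ∧ a ∉ X ∧ b ∉ X := by
      rcases h.sep a b u q hab hqu.symm hua.symm hqa.symm hub.symm hqb.symm with
        ⟨X, g1, g2, g3, g4, g5⟩ | g
      · exact absurd ((hN X g1 g2 g4).1 g3) g5
      · exact g
    obtain ⟨Y, y1, y2, y3, y4, y5⟩ : ∃ X, T X ∧ v ∈ X ∧ q ∈ X ∧ a ∉ X ∧ b ∉ X := by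
      rcases h.sep a b v q hab hqv.symm hva.symm hqa.symm hvb.symm hqb.symm with
        ⟨X, g1, g2, g3, g4, g5⟩ | g
      · exfalso
        by_cases hu : u ∈ X
        · have hT := h.inter g1 z1 g2 z2 g4 z5
          have := (hN _ hT (by simp [g2, z2]) (by simp [z4])).1 (by simp [g3, z3])
          simp [g5] at this
        · exact absurd ((hN X g1 g2 hu).1 g3) g5
      · exact g
    exact ⟨X ∪ Y, h.union x1 y1 x3 y3 x4 y4, by simp [x2], by simp [y2], by simp [x4, y4],
      by simp [x5, y5]⟩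
  · exact ⟨Z, z1, z2, z3, z4, z5⟩

lemma not_both {T : Finset V → Prop} (h : Cr T) {a b u q q' : V} (hab : a ≠ b) (hua : u ≠ a)
    (hub : u ≠ b) (hB : Bad T a b u q) (hB' : Bad (fun X => T Xᶜ) b a u q') : False := by
  obtain ⟨hqa, hqb, hqu, ⟨X₀, hX₀, haX, huX, hbX, hqX⟩, hN⟩ := hB
  obtain ⟨hqb', hqa', hqu', -, hN'⟩ := hB'
  have hN2 : Ins T u b a q' := hN'.undual
  have hq'X : q' ∈ X₀ := (hN2 X₀ hX₀ huX hbX).1 haX
  have hqq : q ≠ q' := fun e => hqX (e ▸ hq'X)
  rcases h.sep a b q q' hab hqq hqa.symm hqa'.symm hqb.symm hqb'.symm with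
    ⟨S, g1, g2, g3, g4, g5⟩ | ⟨S, g1, g2, g3, g4, g5⟩
  · rcases h.sep a b u q' hab hqu'.symm hua.symm hqa'.symm hub.symm hqb'.symm with
      ⟨X, x1, x2, x3, x4, x5⟩ | ⟨X, x1, x2, x3, x4, x5⟩
    · have hT := h.inter g1 x1 g2 x2 g5 x5
      have := (hN _ hT (by simp [g2, x2]) (by simp [x4])).1 (by simp [g3, x3])
      simp [g4] at this
    · exact absurd ((hN2 X x1 x2 x5).2 x3) x4
  · rcases h.sep a b u q hab hqu.symm hua.symm hqa.symm hub.symm hqb.symm with
      ⟨X, x1, x2, x3, x4, x5⟩ | ⟨X, x1, x2, x3, x4, x5⟩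
    · exact absurd ((hN X x1 x2 x4).1 x3) x5
    · have hT := h.union g1 x1 g2 x3 g4 x4
      have := (hN2 _ hT (by simp [x2]) (by simp [g5, x5])).2 (by simp [g3])
      simp [g4, x4] at this

open Classical in
/-- the inseparable pairs -/
noncomputable def prs (T : Finset V → Prop) (a b : V) : Finset (V × V) :=
  univ.filter (fun x => x.1 ≠ x.2 ∧ x.1 ≠ a ∧ x.1 ≠ b ∧ x.2 ≠ a ∧ x.2 ≠ b ∧ Ins T a b x.1 x.2)

lemma mem_prs {T : Finset V → Prop} {a b : V} {x : V × V} : x ∈ prs T a b ↔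
    x.1 ≠ x.2 ∧ x.1 ≠ a ∧ x.1 ≠ b ∧ x.2 ≠ a ∧ x.2 ≠ b ∧ Ins T a b x.1 x.2 := by
  simp [prs]

lemma prs_dual {T : Finset V → Prop} {a b : V} : prs (fun X => T Xᶜ) b a = prs T a b := by
  ext x
  rw [mem_prs, mem_prs]
  constructor
  · rintro ⟨h1, h2, h3, h4, h5, h6⟩
    exact ⟨h1, h3, h2, h5, h4, h6.undual⟩
  · rintro ⟨h1, h2, h3, h4, h5, h6⟩
    exact ⟨h1, h3, h2, h5, h4, h6.dual⟩

lemma card_rev {T : Finset V → Prop} (h : Cr T) {a b u : V} (hab : a ≠ b) (hua : u ≠ a)
    (hT : T {b, u}) : (prs T u a).card ≤ (prs T b a).card := by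
  apply card_le_card
  rintro ⟨p, q⟩ hx
  rw [mem_prs] at hx ⊢
  obtain ⟨h1, h2, h3, h4, h5, h6⟩ := hx
  simp only at h1 h2 h3 h4 h5 h6 ⊢
  have hb := h6 {b, u} hT (by simp) (by simp [hab, hua.symm])
  simp only [mem_insert, mem_singleton, h2, h4, or_false] at hb
  have hpb : p ≠ b := fun e => h1 (e.trans (hb.1 e).symm)
  have hqb : q ≠ b := fun e => h1 ((hb.2 e).trans e.symm)
  refine ⟨h1, hpb, h3, hqb, h5, ?_⟩
  intro X hX hbX haX
  have hU := h.union hX hT hbX (by simp) haX (by simp [hab, hua.symm])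
  have := h6 _ hU (by simp) (by simp [haX, hab, hua.symm])
  simpa [hpb, hqb, h2, h4] using this

lemma stepN {T : Finset V → Prop} (h : Cr T) {a b u v : V} (hab : a ≠ b) (hua : u ≠ a)
    (hub : u ≠ b) (hva : v ≠ a) (hvb : v ≠ b) (huv : u ≠ v) (hI : Ins T a b u v)
    (hnb : ∀ q, ¬ Bad T a b u q) {Z : Finset V} (hZ : T Z) (haZ : a ∈ Z) (hbZ : b ∈ Z)
    (huZ : u ∉ Z) (hvZ : v ∉ Z) :
    (prs T a u).card + (prs T u a).card < (prs T a b).card + (prs T b a).card := by
  have hrev := card_rev h hab hua (pair_mem h hab hua hub hva hvb huv hI)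
  have hb1 : ∀ q, q ≠ a → q ≠ u → q ≠ b → Ins T a u b q → Ins T a b u q := by
    intro q hqa hqu hqb hN X hX haX hbX
    constructor
    · intro hu
      by_contra hq
      exact hnb q ⟨hqa, hqb, hqu, ⟨X, hX, haX, hu, hbX, hq⟩, hN⟩
    · intro hq
      by_contra hu
      exact hbX ((hN X hX haX hu).2 hq)
  have hsym : ∀ {c d p q : V}, Ins T c d p q → Ins T c d q p :=
    fun hh X h1 h2 h3 => (hh X h1 h2 h3).symm
  let φ : V → V := fun p => if p = b then u else p
  have hlt : (prs T a u).card < (prs T a b).card := by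
    have hinj : Set.InjOn (fun x : V × V => (φ x.1, φ x.2)) (prs T a u : Set (V × V)) := by
      rintro ⟨p, q⟩ hx ⟨p', q'⟩ hx' he
      rw [mem_coe, mem_prs] at hx hx'
      simp only [Prod.mk.injEq, φ] at he hx hx' ⊢
      obtain ⟨e1, e2⟩ := he
      constructor
      · split_ifs at e1 with c1 c2 c2
        · rw [c1, c2]
        · exact absurd e1.symm hx'.2.2.1
        · exact absurd e1 hx.2.2.1
        · exact e1
      · split_ifs at e2 with c1 c2 c2
        · rw [c1, c2]
        · exact absurd e2.symm hx'.2.2.2.2.1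
        · exact absurd e2 hx.2.2.2.2.1
        · exact e2
    rw [← card_image_of_injOn hinj]
    apply card_lt_card
    rw [ssubset_iff_of_subset]
    · refine ⟨(u, v), ?_, ?_⟩
      · rw [mem_prs]; exact ⟨huv, hua, hub, hva, hvb, hI⟩
      · rw [mem_image]
        rintro ⟨⟨p, q⟩, hx, he⟩
        rw [mem_prs] at hx
        simp only [Prod.mk.injEq, φ] at he hx
        obtain ⟨e1, e2⟩ := he
        have hp : p = b := by
          by_contra hc
          rw [if_neg hc] at e1
          exact hx.2.2.1 e1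
        have hq : q = v := by
          split_ifs at e2 with c
          · exact absurd e2 huv
          · exact e2
        subst hp; subst hq
        exact hvZ ((hx.2.2.2.2.2 Z hZ haZ huZ).1 hbZ)
    · intro y hy
      rw [mem_image] at hy
      obtain ⟨⟨p, q⟩, hx, rfl⟩ := hy
      rw [mem_prs] at hx ⊢
      simp only [φ] at hx ⊢
      obtain ⟨h1, h2, h3, h4, h5, h6⟩ := hx
      by_cases hp : p = b
      · subst hp
        have hq : q ≠ p := h1.symm
        simp only [if_true, if_neg hq]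
        exact ⟨h5.symm, hua, hub, h4, hq, hb1 q h4 h5 hq h6⟩
      · by_cases hq : q = b
        · subst hq
          simp only [if_true, if_neg hp]
          exact ⟨h3, h2, hp, hua, hub, hsym (hb1 p h2 h3 hp (hsym h6))⟩
        · simp only [if_neg hp, if_neg hq]
          refine ⟨h1, h2, hp, h4, hq, ?_⟩
          intro X hX haX hbX
          constructor
          · intro hpX
            by_contra hqX
            exact hnb q (bad_of_new h hab hua hub hva hvb huv hI h2 hp h3 h4 hq h5 h1 h6 hX haX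
              hbX hpX hqX)
          · intro hqX
            by_contra hpX
            exact hnb p (bad_of_new h hab hua hub hva hvb huv hI h4 hq h5 h2 hp h3 h1.symm
              (hsym h6) hX haX hbX hqX hpX)
  omega

lemma step {T : Finset V → Prop} (h : Cr T) {a b u v : V} (hab : a ≠ b) (hua : u ≠ a)
    (hub : u ≠ b) (hva : v ≠ a) (hvb : v ≠ b) (huv : u ≠ v) (hI : Ins T a b u v) :
    ∃ a' b' : V, a' ≠ b' ∧
    (prs T a' b').card + (prs T b' a').card < (prs T a b).card + (prs T b a).card := by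
  -- the dual move
  have hP : (∀ q, ¬ Bad (fun X => T Xᶜ) b a u q) → (∃ Z, T Z ∧ u ∈ Z ∧ v ∈ Z ∧ a ∉ Z ∧ b ∉ Z) →
      (prs T u b).card + (prs T b u).card < (prs T a b).card + (prs T b a).card := by
    rintro hnb ⟨Z, z1, z2, z3, z4, z5⟩
    have := stepN h.dual hab.symm hub hua hvb hva huv hI.dual hnb (Z := Zᶜ) (by simpa using z1)
      (by simpa using z5) (by simpa using z4) (by simpa using z2) (by simpa using z3)
    simpa only [prs_dual] using this
  by_cases hB : ∃ q, Bad T a b u q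
  · obtain ⟨q, hq⟩ := hB
    exact ⟨u, b, hub, hP (fun q' hq' => not_both h hab hua hub hq hq')
      (other_side h hab hua hub hva hvb huv hI hq)⟩
  · push Not at hB
    rcases h.sep a b u v hab huv hua.symm hva.symm hub.symm hvb.symm with
      ⟨Z, z1, z2, z3, z4, z5⟩ | ⟨Z, z1, z2, z3, z4, z5⟩
    · exact ⟨a, u, hua.symm, stepN h hab hua hub hva hvb huv hI hB z1 z2 z3 z4 z5⟩
    · by_cases hB' : ∃ q, Bad (fun X => T Xᶜ) b a u q
      · obtain ⟨q, hq⟩ := hB'
        obtain ⟨Y, y1, y2, y3, y4, y5⟩ := other_side h.dual hab.symm hub hua hvb hva huv hI.dual hq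
        exact ⟨a, u, hua.symm, stepN h hab hua hub hva hvb huv hI hB (Z := Yᶜ) y1
          (by simpa using y5) (by simpa using y4) (by simpa using y2) (by simpa using y3)⟩
      · push Not at hB'
        exact ⟨u, b, hub, hP hB' ⟨Z, z1, z2, z3, z4, z5⟩⟩

/-- the combinatorial core -/
theorem core {T : Finset V → Prop} (h : Cr T) {a₀ b₀ : V} (h₀ : a₀ ≠ b₀) :
    ∃ a b : V, a ≠ b ∧ ∀ p q : V, p ≠ q → p ≠ a → p ≠ b → q ≠ a → q ≠ b →
      ¬ Ins T a b p q ∧ ¬ Ins T b a p q := by
  obtain ⟨⟨a, b⟩, hab, hmin⟩ := exists_min_image (univ.filter (fun x : V × V => x.1 ≠ x.2))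
    (fun x => (prs T x.1 x.2).card + (prs T x.2 x.1).card) ⟨(a₀, b₀), by simp [h₀]⟩
  simp only [mem_filter, mem_univ, true_and] at hab hmin
  refine ⟨a, b, hab, ?_⟩
  intro p q hpq hpa hpb hqa hqb
  constructor
  · intro hI
    obtain ⟨a', b', h1, h2⟩ := step h hab hpa hpb hqa hqb hpq hI
    have := hmin (a', b') h1
    simp only at this
    omega
  · intro hI
    obtain ⟨a', b', h1, h2⟩ := step h hab.symm hpb hpa hqb hqa hpq hI
    have := hmin (a', b') h1
    simp only at this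
    omega

/-- the base polyhedron of `f` -/
def base (f : Finset V → ℝ) : Set (V → ℝ) :=
  {x | (∀ X : Finset V, ∑ i ∈ X, x i ≤ f X) ∧ ∑ i, x i = f univ}

lemma tight_inter {f : Finset V → ℝ} (hsub : ∀ X Y, f (X ∪ Y) + f (X ∩ Y) ≤ f X + f Y)
    {x : V → ℝ} (hx : x ∈ base f) {X Y : Finset V} (hX : ∑ i ∈ X, x i = f X)
    (hY : ∑ i ∈ Y, x i = f Y) : ∑ i ∈ X ∩ Y, x i = f (X ∩ Y) := by
  have h1 := hx.1 (X ∪ Y)
  have h2 := hx.1 (X ∩ Y)
  have h3 := hsub X Y
  have h4 : ∑ i ∈ X ∪ Y, x i + ∑ i ∈ X ∩ Y, x i = ∑ i ∈ X, x i + ∑ i ∈ Y, x i :=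
    sum_union_inter
  linarith

lemma extreme_of_sep {f : Finset V → ℝ} (hsub : ∀ X Y, f (X ∪ Y) + f (X ∩ Y) ≤ f X + f Y)
    {x : V → ℝ} (hx : x ∈ base f)
    (hs : ∀ p q : V, p ≠ q → ∃ X, ∑ i ∈ X, x i = f X ∧ ¬ (p ∈ X ↔ q ∈ X)) :
    x ∈ Set.extremePoints ℝ (base f) := by
  refine ⟨hx, ?_⟩
  intro y hy z hz hseg
  obtain ⟨α, β, hα, hβ, hαβ, he⟩ := hseg
  have ht : ∀ X : Finset V, ∑ i ∈ X, x i = f X → ∑ i ∈ X, y i = ∑ i ∈ X, x i := by
    intro X hX
    have h1 := hy.1 X
    have h2 := hz.1 X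
    have h3 : ∑ i ∈ X, x i = α * ∑ i ∈ X, y i + β * ∑ i ∈ X, z i := by
      rw [mul_sum, mul_sum, ← sum_add_distrib, ← he]
      simp
    rw [hX]
    have h4 : β = 1 - α := by linarith
    subst h4
    have h5 : (1 - α) * ∑ i ∈ X, z i ≤ (1 - α) * f X := mul_le_mul_of_nonneg_left h2 hβ.le
    have h6 : α * f X ≤ α * ∑ i ∈ X, y i := by nlinarith
    exact le_antisymm h1 (le_of_mul_le_mul_left h6 hα)
  have key : ∀ X : Finset V, ∑ i ∈ X, x i = f X → ∀ p ∈ X, y p = x p := by
    intro X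
    induction X using Finset.strongInduction with
    | H X ih =>
      intro hX p hp
      by_contra hne
      have hz' : ∀ q ∈ X, q ≠ p → y q = x q := by
        intro q hq hqp
        obtain ⟨Y, hY, hYs⟩ := hs p q hqp.symm
        have hT := tight_inter hsub hx hX hY
        by_cases hpY : p ∈ Y
        · have hqY : q ∉ Y := fun h => hYs ⟨fun _ => h, fun _ => hpY⟩
          exfalso
          apply hne
          refine ih (X ∩ Y) ?_ hT p (mem_inter.2 ⟨hp, hpY⟩)
          rw [ssubset_iff_of_subset inter_subset_left]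
          exact ⟨q, hq, by simp [hqY]⟩
        · have hqY : q ∈ Y := by
            by_contra h
            exact hYs ⟨fun h' => absurd h' hpY, fun h' => absurd h' h⟩
          refine ih (X ∩ Y) ?_ hT q (mem_inter.2 ⟨hq, hqY⟩)
          rw [ssubset_iff_of_subset inter_subset_left]
          exact ⟨p, hp, by simp [hpY]⟩
      have h1 := ht X hX
      rw [← add_sum_erase X y hp, ← add_sum_erase X x hp] at h1
      have h2 : ∑ i ∈ X.erase p, y i = ∑ i ∈ X.erase p, x i :=
        sum_congr rfl (fun q hq => hz' q (mem_of_mem_erase hq) (ne_of_mem_erase hq))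
      rw [h2] at h1
      exact hne (add_right_cancel h1)
  funext p
  exact key univ hx.2 p (mem_univ p)

lemma greedy {f : Finset V → ℝ} (hf0 : f ∅ = 0)
    (hsub : ∀ X Y, f (X ∪ Y) + f (X ∩ Y) ≤ f X + f Y) (r : V → ℕ) (hr : Function.Injective r) :
    (fun a => f (univ.filter (fun w => r w < r a + 1)) - f (univ.filter (fun w => r w < r a))) ∈
      Set.extremePoints ℝ (base f) := by
  set v : V → ℝ := fun a => f (univ.filter (fun w => r w < r a + 1)) -
    f (univ.filter (fun w => r w < r a)) with hv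
  have hA : ∀ i : ℕ, (∀ X : Finset V, ∑ w ∈ X ∩ univ.filter (fun w => r w < i), v w ≤
      f (X ∩ univ.filter (fun w => r w < i))) ∧
      ∑ w ∈ univ.filter (fun w => r w < i), v w = f (univ.filter (fun w => r w < i)) := by
    intro i
    induction i with
    | zero => simp [hf0]
    | succ i ih =>
      by_cases hw : ∃ w, r w = i
      · obtain ⟨w, rfl⟩ := hw
        have hP : univ.filter (fun z => r z < r w + 1) =
            insert w (univ.filter (fun z => r z < r w)) := by
          ext z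
          simp only [mem_filter, mem_univ, true_and, mem_insert]
          constructor
          · intro hz
            rcases Nat.lt_succ_iff_lt_or_eq.1 hz with h | h
            · exact Or.inr h
            · exact Or.inl (hr h)
          · rintro (rfl | h) <;> omega
        have hwn : w ∉ univ.filter (fun z => r z < r w) := by simp
        have hvw : v w = f (insert w (univ.filter (fun z => r z < r w))) -
            f (univ.filter (fun z => r z < r w)) := by rw [hv]; simp only; rw [hP]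
        rw [hP]
        constructor
        · intro X
          by_cases hwX : w ∈ X
          · have e1 : X ∩ insert w (univ.filter (fun z => r z < r w)) =
                insert w (X ∩ univ.filter (fun z => r z < r w)) := by
              rw [inter_insert_of_mem hwX]
            have hwn2 : w ∉ X ∩ univ.filter (fun z => r z < r w) := fun h =>
              hwn (mem_inter.1 h).2
            rw [e1, sum_insert hwn2, hvw]
            have h1 := ih.1 X
            have h2 := hsub (insert w (X ∩ univ.filter (fun z => r z < r w)))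
              (univ.filter (fun z => r z < r w))
            have e2 : insert w (X ∩ univ.filter (fun z => r z < r w)) ∪
                (univ.filter (fun z => r z < r w)) = insert w (univ.filter (fun z => r z < r w)) := by
              ext z; simp only [mem_union, mem_insert, mem_inter, mem_filter, mem_univ, true_and]
              tauto
            have e3 : insert w (X ∩ univ.filter (fun z => r z < r w)) ∩
                (univ.filter (fun z => r z < r w)) = X ∩ univ.filter (fun z => r z < r w) := by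
              ext z
              simp only [mem_insert, mem_inter, mem_filter, mem_univ, true_and]
              constructor
              · rintro ⟨rfl | h, h'⟩
                · omega
                · exact h
              · rintro ⟨h, h'⟩
                exact ⟨Or.inr ⟨h, h'⟩, h'⟩
            rw [e2, e3] at h2
            linarith
          · rw [inter_insert_of_notMem hwX]
            exact ih.1 X
        · rw [sum_insert hwn, ih.2, hvw]; ring
      · have hP : univ.filter (fun z => r z < i + 1) = univ.filter (fun z => r z < i) := by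
          ext z
          simp only [mem_filter, mem_univ, true_and]
          constructor
          · intro hz
            rcases Nat.lt_succ_iff_lt_or_eq.1 hz with h | h
            · exact h
            · exact absurd ⟨z, h⟩ hw
          · intro hz; omega
        rw [hP]; exact ih
  have hU : univ.filter (fun w => r w < univ.sup r + 1) = (univ : Finset V) := by
    ext z
    simp only [mem_filter, mem_univ, true_and, iff_true]
    exact Nat.lt_succ_of_le (le_sup (f := r) (mem_univ z))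
  have hb : v ∈ base f := by
    refine ⟨?_, ?_⟩
    · intro X
      have := (hA (univ.sup r + 1)).1 X
      rwa [hU, inter_univ] at this
    · have := (hA (univ.sup r + 1)).2
      rwa [hU] at this
  apply extreme_of_sep hsub hb
  intro p q hpq
  rcases lt_or_gt_of_ne (fun h => hpq (hr h)) with h | h
  · refine ⟨_, (hA (r p + 1)).2, ?_⟩
    simp only [mem_filter, mem_univ, true_and]
    intro h'
    have := h'.1 (by omega)
    omega
  · refine ⟨_, (hA (r q + 1)).2, ?_⟩
    simp only [mem_filter, mem_univ, true_and]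
    intro h'
    have := h'.2 (by omega)
    omega

lemma marginal {f : Finset V → ℝ} (hf0 : f ∅ = 0)
    (hsub : ∀ X Y, f (X ∪ Y) + f (X ∩ Y) ≤ f X + f Y)
    (hvert : ∀ x ∈ Set.extremePoints ℝ (base f), ∀ i, x i = 0 ∨ x i = 1 ∨ x i = -1)
    (X : Finset V) (a : V) (ha : a ∉ X) :
    f (insert a X) - f X = 0 ∨ f (insert a X) - f X = 1 ∨ f (insert a X) - f X = -1 := by
  classical
  let e := Fintype.equivFin V
  set N := Fintype.card V with hN
  have he : ∀ w, (e w : ℕ) < N := fun w => (e w).2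
  let r : V → ℕ := fun w => if w ∈ X then (e w : ℕ) else if w = a then N else N + 1 + (e w : ℕ)
  have hinj : ∀ w z : V, (e w : ℕ) = (e z : ℕ) → w = z := fun w z h => e.injective (Fin.ext h)
  have hr : Function.Injective r := by
    intro w z h
    simp only [r] at h
    have h1 := he w
    have h2 := he z
    split_ifs at h with c1 c2 c3 c4 c5 c6
    all_goals first | (exact hinj w z (by omega)) | (exfalso; omega) | (subst_vars; rfl)
  have h1 : univ.filter (fun w => r w < r a) = X := by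
    ext w
    simp only [mem_filter, mem_univ, true_and, r, if_neg ha, if_true]
    constructor
    · intro h
      by_contra hc
      rw [if_neg hc] at h
      split_ifs at h <;> omega
    · intro h
      rw [if_pos h]; exact he w
  have h2 : univ.filter (fun w => r w < r a + 1) = insert a X := by
    ext w
    simp only [mem_filter, mem_univ, true_and, r, if_neg ha, if_true, mem_insert]
    constructor
    · intro h
      by_contra hc
      push Not at hc
      rw [if_neg hc.2, if_neg hc.1] at h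
      omega
    · rintro (rfl | h)
      · rw [if_neg ha, if_pos rfl]; omega
      · rw [if_pos h]; have := he w; omega
  have := hvert _ (greedy hf0 hsub r hr) a
  simpa only [h1, h2] using this

/-- the indicator of a point -/
def ch (a : V) : V → ℝ := fun i => if i = a then 1 else 0

lemma sum_ch (a : V) (X : Finset V) : ∑ i ∈ X, ch a i = if a ∈ X then 1 else 0 := by
  simp [ch]

lemma quad {f : Finset V → ℝ} (hpos : ∀ X, 0 ≤ f X) (hfu : f univ = 0) {a b c d : V}
    (hab : a ≠ b) (hac : a ≠ c) (had : a ≠ d) (hbc : b ≠ c) (hbd : b ≠ d) (hcd : c ≠ d)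
    (ha : ∀ X, a ∈ X → b ∉ X → 1 ≤ f X) (hb : ∀ X, b ∈ X → a ∉ X → 1 ≤ f X)
    (hc : ∀ X, c ∈ X → d ∉ X → 1 ≤ f X) (hd : ∀ X, d ∈ X → c ∉ X → 1 ≤ f X)
    (h2 : ∀ X, a ∈ X → c ∈ X → b ∉ X → d ∉ X → 2 ≤ f X)
    (h2' : ∀ X, b ∈ X → d ∈ X → a ∉ X → c ∉ X → 2 ≤ f X)
    (hsmall : ∀ x : V → ℝ, (∀ i, x i = 0 ∨ x i = 1 ∨ x i = -1) → x ∈ base f → -x ∈ base f →
      (univ.filter (fun i => x i ≠ 0)).card ≤ 2) : False := by
  set x : V → ℝ := fun i => ch a i + ch c i - ch b i - ch d i with hx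
  have hsum : ∀ X : Finset V, ∑ i ∈ X, x i = (if a ∈ X then 1 else 0) + (if c ∈ X then 1 else 0) -
      (if b ∈ X then 1 else 0) - (if d ∈ X then 1 else 0) := by
    intro X
    simp only [hx, sum_sub_distrib, sum_add_distrib, sum_ch]
  have hvals : ∀ i, x i = 0 ∨ x i = 1 ∨ x i = -1 := by
    intro i
    simp only [hx, ch]
    by_cases h1 : i = a
    · subst h1; simp [hab, hac, had]
    · by_cases h3 : i = c
      · subst h3; simp [h1, hbc.symm, hcd]
      · by_cases h4 : i = b
        · subst h4; simp [h1, h3, hbd]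
        · by_cases h5 : i = d
          · subst h5; simp [h1, h3, h4]
          · simp [h1, h3, h4, h5]
  have hxB : x ∈ base f := by
    refine ⟨?_, ?_⟩
    · intro X
      rw [hsum]
      have p0 := hpos X
      have p1 := ha X
      have p2 := hc X
      have p3 := h2 X
      by_cases k1 : a ∈ X <;> by_cases k2 : c ∈ X <;> by_cases k3 : b ∈ X <;>
        by_cases k4 : d ∈ X <;> simp [k1, k2, k3, k4] at p1 p2 p3 ⊢ <;> linarith
    · rw [hsum, hfu]; simp
  have hnB : -x ∈ base f := by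
    refine ⟨?_, ?_⟩
    · intro X
      have e : ∑ i ∈ X, (-x) i = - ∑ i ∈ X, x i := by simp
      rw [e, hsum]
      have p0 := hpos X
      have p1 := hb X
      have p2 := hd X
      have p3 := h2' X
      by_cases k1 : a ∈ X <;> by_cases k2 : c ∈ X <;> by_cases k3 : b ∈ X <;>
        by_cases k4 : d ∈ X <;> simp [k1, k2, k3, k4] at p1 p2 p3 ⊢ <;> linarith
    · have e : ∑ i, (-x) i = - ∑ i, x i := by simp
      rw [e, hsum, hfu]; simp
  have hle := hsmall x hvals hxB hnB
  have hsub : ({a, b, c} : Finset V) ⊆ univ.filter (fun i => x i ≠ 0) := by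
    intro i hi
    simp only [mem_insert, mem_singleton] at hi
    simp only [mem_filter, mem_univ, true_and, hx, ch]
    rcases hi with rfl | rfl | rfl
    · simp [hab, hac, had]
    · simp [hab.symm, hbc, hbd]
    · simp [hac.symm, hbc.symm, hcd]
  have h3 : ({a, b, c} : Finset V).card = 3 := by
    rw [card_insert_of_notMem, card_insert_of_notMem, card_singleton]
    · simpa using hbc
    · simp [hab, hac]
  have := card_le_card hsub
  omega

/-- basic facts -/
lemma facts {f : Finset V → ℝ} (hf0 : f ∅ = 0)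
    (hsub : ∀ X Y, f (X ∪ Y) + f (X ∩ Y) ≤ f X + f Y)
    (hvert : ∀ x ∈ Set.extremePoints ℝ (base f), ∀ i, x i = 0 ∨ x i = 1 ∨ x i = -1)
    (h0 : (0 : V → ℝ) ∈ base f) :
    f univ = 0 ∧ (∀ X, 0 ≤ f X) ∧ (∀ X, ∃ z : ℤ, f X = z) ∧ (∀ a : V, f {a} ≤ 1) ∧
      (∀ a : V, f ({a} : Finset V)ᶜ ≤ 1) := by
  have hfu : f univ = 0 := by simpa using h0.2.symm
  refine ⟨hfu, fun X => by simpa using h0.1 X, ?_, ?_, ?_⟩
  · intro X
    induction X using Finset.induction_on with
    | empty => exact ⟨0, by simpa using hf0⟩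
    | insert a X ha ih =>
      obtain ⟨z, hz⟩ := ih
      rcases marginal hf0 hsub hvert X a ha with h | h | h
      · exact ⟨z, by linarith⟩
      · exact ⟨z + 1, by push_cast; linarith⟩
      · exact ⟨z - 1, by push_cast; linarith⟩
  · intro a
    have := marginal hf0 hsub hvert ∅ a (by simp)
    rw [hf0, insert_empty] at this
    rcases this with h | h | h <;> linarith
  · intro a
    have := marginal hf0 hsub hvert {a}ᶜ a (by simp)
    have e : insert a ({a} : Finset V)ᶜ = univ := by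
      ext z; simp [em]
    rw [e, hfu] at this
    rcases this with h | h | h <;> linarith

lemma one_zero {f : Finset V → ℝ} (hsub : ∀ X Y, f (X ∪ Y) + f (X ∩ Y) ≤ f X + f Y)
    (hfu : f univ = 0) (hsg : ∀ a : V, f {a} ≤ 1) (hco : ∀ a : V, f ({a} : Finset V)ᶜ ≤ 1)
    {x : V → ℝ} (hv : ∀ i, x i = 0 ∨ x i = 1 ∨ x i = -1) (hx : x ∈ base f)
    (hz : ∀ p q, x p = 0 → x q = 0 → p = q) : x ∈ Set.extremePoints ℝ (base f) := by
  have key : ∀ p, x p ≠ 0 → ∃ X : Finset V, ∑ i ∈ X, x i = f X ∧ ∀ q, q ≠ p → ¬ (p ∈ X ↔ q ∈ X) := by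
    intro p hp
    rcases hv p with h | h | h
    · exact absurd h hp
    · refine ⟨{p}, ?_, ?_⟩
      · have h1 := hx.1 {p}
        rw [sum_singleton] at h1 ⊢
        have := hsg p
        linarith
      · intro q hq h'
        exact hq (by simpa using h'.1 (by simp))
    · refine ⟨{p}ᶜ, ?_, ?_⟩
      · have h1 := hx.1 {p}ᶜ
        have h2 : ∑ i ∈ ({p} : Finset V)ᶜ, x i = 1 := by
          have h3 := sum_compl_add_sum ({p} : Finset V) x
          rw [sum_singleton, hx.2, hfu] at h3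
          linarith
        have := hco p
        rw [h2] at h1 ⊢
        linarith
      · intro q hq h'
        have := h'.2 (by simpa using hq)
        simp at this
  apply extreme_of_sep hsub hx
  intro p q hpq
  by_cases hp : x p = 0
  · have hq : x q ≠ 0 := fun h => hpq (hz p q hp h)
    obtain ⟨X, h1, h2⟩ := key q hq
    exact ⟨X, h1, fun h => h2 p hpq h.symm⟩
  · obtain ⟨X, h1, h2⟩ := key p hp
    exact ⟨X, h1, h2 q hpq.symm⟩

/-- the case in which all opposite integral points have at most two nonzero coordinates -/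
theorem small {f : Finset V → ℝ} (hf0 : f ∅ = 0)
    (hsub : ∀ X Y, f (X ∪ Y) + f (X ∩ Y) ≤ f X + f Y)
    (hvert : ∀ x ∈ Set.extremePoints ℝ (base f), ∀ i, x i = 0 ∨ x i = 1 ∨ x i = -1)
    (h0 : (0 : V → ℝ) ∈ base f)
    (hsmall : ∀ x : V → ℝ, (∀ i, x i = 0 ∨ x i = 1 ∨ x i = -1) → x ∈ base f → -x ∈ base f →
      (univ.filter (fun i => x i ≠ 0)).card ≤ 2) :
    ∃ x ∈ Set.extremePoints ℝ (base f), -x ∈ Set.extremePoints ℝ (base f) := by
  classical
  obtain ⟨hfu, hpos, hint, hsg, hco⟩ := facts hf0 hsub hvert h0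
  have hge1 : ∀ X, f X ≠ 0 → 1 ≤ f X := by
    intro X hX
    obtain ⟨z, hz⟩ := hint X
    have h1 := hpos X
    rw [hz] at h1 hX ⊢
    have h2 : (0 : ℤ) ≤ z := by exact_mod_cast h1
    have h3 : z ≠ 0 := by rintro rfl; simp at hX
    exact_mod_cast (by omega : (1 : ℤ) ≤ z)
  have hge2 : ∀ X, 1 ≤ f X → f X ≠ 1 → 2 ≤ f X := by
    intro X h1 hX
    obtain ⟨z, hz⟩ := hint X
    rw [hz] at h1 hX ⊢
    have h2 : (1 : ℤ) ≤ z := by exact_mod_cast h1
    have h3 : z ≠ 1 := by rintro rfl; simp at hX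
    exact_mod_cast (by omega : (2 : ℤ) ≤ z)
  let E : V → V → Prop := fun p q => ∀ X, f X = 0 → (p ∈ X ↔ q ∈ X)
  have hE1 : ∀ {w z : V}, E w z → ∀ X, w ∈ X → z ∉ X → 1 ≤ f X := by
    intro w z hE X h1 h2
    apply hge1
    intro h
    exact h2 ((hE X h).1 h1)
  have hEs : ∀ {w z : V}, E w z → E z w := fun h X hX => (h X hX).symm
  have hEt : ∀ {w z y : V}, E w z → E z y → E w y := fun h h' X hX => (h X hX).trans (h' X hX)
  by_cases hE : ∃ p q, p ≠ q ∧ E p q
  swap
  · refine ⟨0, ?_, ?_⟩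
    · apply extreme_of_sep hsub h0
      intro p q hpq
      by_contra hc
      push Not at hc
      apply hE
      refine ⟨p, q, hpq, fun X hX => ?_⟩
      exact hc X (by simp [hX])
    · rw [neg_zero]
      apply extreme_of_sep hsub h0
      intro p q hpq
      by_contra hc
      push Not at hc
      apply hE
      refine ⟨p, q, hpq, fun X hX => ?_⟩
      exact hc X (by simp [hX])
  obtain ⟨p₀, q₀, hne, hE₀⟩ := hE
  let C := {w : V // E p₀ w}
  have hCC : ∀ w z : C, E w z := fun w z => hEt (hEs w.2) z.2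
  let T : Finset C → Prop := fun Y => ∃ X : Finset V, f X = 1 ∧ ∀ w : C, w ∈ Y ↔ (w : V) ∈ X
  have hCr : Cr T := by
    refine ⟨?_, ?_, ?_, ?_⟩
    · intro a u hau
      refine ⟨{(a : V)}, ?_, ?_⟩
      · apply le_antisymm (hsg _)
        exact hE1 (hCC a u) _ (by simp) (by simpa using fun h => hau (Subtype.ext h.symm))
      · intro w
        simp only [mem_singleton]
        exact Subtype.ext_iff
    · intro a u hau
      refine ⟨{(a : V)}ᶜ, ?_, ?_⟩
      · apply le_antisymm (hco _)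
        exact hE1 (hCC u a) _ (by simpa using fun h => hau (Subtype.ext h.symm)) (by simp)
      · intro w
        simp only [mem_compl, mem_singleton]
        exact not_congr Subtype.ext_iff
    · rintro Y₁ Y₂ ⟨X₁, h1, h1'⟩ ⟨X₂, h2, h2'⟩ ⟨w, hw1, hw2⟩ ⟨z, hz1, hz2⟩
      rw [h1'] at hw1 hz1
      rw [h2'] at hw2 hz2
      have e1 : 1 ≤ f (X₁ ∩ X₂) := hE1 (hCC w z) _ (by simp [hw1, hw2]) (by simp [hz1])
      have e2 : 1 ≤ f (X₁ ∪ X₂) := hE1 (hCC w z) _ (by simp [hw1]) (by simp [hz1, hz2])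
      have e3 := hsub X₁ X₂
      refine ⟨⟨X₁ ∩ X₂, by linarith, fun y => ?_⟩, ⟨X₁ ∪ X₂, by linarith, fun y => ?_⟩⟩
      · rw [mem_inter, mem_inter, h1', h2']
      · rw [mem_union, mem_union, h1', h2']
    · intro a c b d h1 h2 h3 h4 h5 h6
      by_contra hc
      push Not at hc
      obtain ⟨hc1, hc2⟩ := hc
      have hT : ∀ X : Finset V, f X = 1 → T (univ.filter (fun w : C => (w : V) ∈ X)) :=
        fun X hX => ⟨X, hX, fun w => by simp⟩
      have hv : ∀ {s t : C}, s ≠ t → (s : V) ≠ t := fun h h' => h (Subtype.ext h')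
      refine quad (a := a) (b := b) (c := c) (d := d) hpos hfu (hv h3) (hv h1) (hv h4)
        (hv h5.symm) (hv h2) (hv h6) (hE1 (hCC a b)) (hE1 (hCC b a)) (hE1 (hCC c d))
        (hE1 (hCC d c)) ?_ ?_ hsmall
      · intro X g1 g2 g3 g4
        apply hge2 X (hE1 (hCC a b) X g1 g3)
        intro hX
        have := hc1 _ (hT X hX) (by simpa using g1) (by simpa using g2) (by simpa using g3)
        exact g4 (by simpa using this)
      · intro X g1 g2 g3 g4
        apply hge2 X (hE1 (hCC b a) X g1 g3)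
        intro hX
        have := hc2 _ (hT X hX) (by simpa using g1) (by simpa using g2) (by simpa using g3)
        exact g4 (by simpa using this)
  obtain ⟨a, b, hab, hcore⟩ := core hCr (a₀ := ⟨p₀, fun X _ => Iff.rfl⟩) (b₀ := ⟨q₀, hE₀⟩)
    (fun h => hne (congrArg Subtype.val h))
  have root : ∀ a b : C, a ≠ b → (∀ p q : C, p ≠ q → p ≠ a → p ≠ b → q ≠ a → q ≠ b →
      ¬ Ins T a b p q) → (fun i => ch (a : V) i - ch (b : V) i) ∈ Set.extremePoints ℝ (base f) := by
    intro a b hab hI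
    have habV : (a : V) ≠ b := fun h => hab (Subtype.ext h)
    have hsum : ∀ X : Finset V, ∑ i ∈ X, (ch (a : V) i - ch (b : V) i) =
        (if (a : V) ∈ X then 1 else 0) - (if (b : V) ∈ X then 1 else 0) := by
      intro X
      simp only [sum_sub_distrib, sum_ch]
    have hB : (fun i => ch (a : V) i - ch (b : V) i) ∈ base f := by
      refine ⟨?_, ?_⟩
      · intro X
        rw [hsum]
        have p0 := hpos X
        have p1 := hE1 (hCC a b) X
        by_cases k1 : (a : V) ∈ X <;> by_cases k2 : (b : V) ∈ X <;>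
          simp [k1, k2] at p1 ⊢ <;> linarith
      · rw [hsum, hfu]; simp
    apply extreme_of_sep hsub hB
    intro p q hpq
    by_cases hEpq : E p q
    swap
    · simp only [E] at hEpq
      push Not at hEpq
      obtain ⟨Z, hZ, hZs⟩ := hEpq
      refine ⟨Z, ?_, ?_⟩
      · rw [hsum, hZ]
        have := hCC a b Z hZ
        by_cases k1 : (a : V) ∈ Z
        · simp [k1, this.1 k1]
        · have k2 : (b : V) ∉ Z := fun h => k1 (this.2 h)
          simp [k1, k2]
      · intro h
        rcases hZs with ⟨h1, h2⟩ | ⟨h1, h2⟩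
        · exact h2 (h.1 h1)
        · exact h1 (h.2 h2)
    by_cases hp : E p₀ p
    swap
    · exfalso
      have hq : ¬ E p₀ q := fun h => hp (hEt h (hEs hEpq))
      have hpa : (a : V) ≠ p := fun h => hp (h ▸ a.2)
      have hqa : (a : V) ≠ q := fun h => hq (h ▸ a.2)
      have hpb : (b : V) ≠ p := fun h => hp (h ▸ b.2)
      have hqb : (b : V) ≠ q := fun h => hq (h ▸ b.2)
      have hp' := hp
      simp only [E] at hp'
      push Not at hp'
      obtain ⟨Z, hZ, hZs⟩ := hp'
      have h2 : ∀ a b : C, ∀ p q : V, E p q → ¬ E p₀ p → ((p₀ ∈ Z ∧ p ∉ Z) ∨ (p₀ ∉ Z ∧ p ∈ Z)) →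
          ∀ X, (a : V) ∈ X → p ∈ X → (b : V) ∉ X → q ∉ X → 2 ≤ f X := by
        intro a b p q hpq _ hZs X g1 g2 g3 g4
        have s := hsub X Z
        rw [hZ] at s
        rcases hZs with ⟨k1, k2⟩ | ⟨k1, k2⟩
        · have ka : (a : V) ∈ Z := (a.2 Z hZ).1 k1
          have kq : q ∉ Z := fun h => k2 ((hpq Z hZ).2 h)
          have r1 := hE1 (hCC a b) (X ∩ Z) (by simp [g1, ka]) (by simp [g3])
          have r2 := hE1 hpq (X ∪ Z) (by simp [g2]) (by simp [g4, kq])
          linarith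
        · have kb : (b : V) ∉ Z := fun h => k1 ((b.2 Z hZ).2 h)
          have r1 := hE1 (hCC a b) (X ∪ Z) (by simp [g1]) (by simp [g3, kb])
          have r2 := hE1 hpq (X ∩ Z) (by simp [g2, k2]) (by simp [g4])
          linarith
      have hZs' : (p₀ ∈ Z ∧ p ∉ Z) ∨ (p₀ ∉ Z ∧ p ∈ Z) := by tauto
      have hpqZ := hEpq Z hZ
      have hZs2 : (p₀ ∈ Z ∧ q ∉ Z) ∨ (p₀ ∉ Z ∧ q ∈ Z) := by tauto
      exact quad (a := a) (b := b) (c := p) (d := q) hpos hfu habV hpa hqa hpb hqb hpq
        (hE1 (hCC a b)) (hE1 (hCC b a)) (hE1 hEpq) (hE1 (hEs hEpq))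
        (h2 a b p q hEpq hp hZs') (h2 b a q p (hEs hEpq) hq hZs2) hsmall
    have hq : E p₀ q := hEt hp hEpq
    -- singleton and cosingleton tight sets
    have ta : ∑ i ∈ ({(a : V)} : Finset V), (ch (a : V) i - ch (b : V) i) = f {(a : V)} := by
      have h1 := hB.1 {(a : V)}
      have h2 := hsg (a : V)
      rw [hsum] at h1 ⊢
      simp [habV.symm] at h1 ⊢
      linarith
    have tb : ∑ i ∈ ({(b : V)} : Finset V)ᶜ, (ch (a : V) i - ch (b : V) i) =
        f ({(b : V)} : Finset V)ᶜ := by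
      have h1 := hB.1 {(b : V)}ᶜ
      have h2 := hco (b : V)
      rw [hsum] at h1 ⊢
      simp [habV] at h1 ⊢
      linarith
    by_cases hpa : p = a
    · refine ⟨_, ta, ?_⟩
      simp only [mem_singleton]
      exact fun h => hpq (hpa.trans (h.1 hpa).symm)
    by_cases hqa : q = a
    · refine ⟨_, ta, ?_⟩
      simp only [mem_singleton]
      exact fun h => hpq ((h.2 hqa).trans hqa.symm)
    by_cases hpb : p = b
    · refine ⟨_, tb, ?_⟩
      simp only [mem_compl, mem_singleton]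
      intro h
      exact (h.2 (fun h' => hpq (hpb.trans h'.symm))) hpb
    by_cases hqb : q = b
    · refine ⟨_, tb, ?_⟩
      simp only [mem_compl, mem_singleton]
      intro h
      exact (h.1 (fun h' => hpq (h'.trans hqb.symm))) hqb
    have hn := hI ⟨p, hp⟩ ⟨q, hq⟩ (fun h => hpq (congrArg Subtype.val h))
      (fun h => hpa (congrArg Subtype.val h)) (fun h => hpb (congrArg Subtype.val h))
      (fun h => hqa (congrArg Subtype.val h)) (fun h => hqb (congrArg Subtype.val h))
    simp only [Ins] at hn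
    push Not at hn
    obtain ⟨Y, ⟨X, hX, hXY⟩, haY, hbY, hs⟩ := hn
    rw [hXY] at haY hbY
    refine ⟨X, ?_, ?_⟩
    · rw [hsum, hX]; simp [haY, hbY]
    · intro h
      rw [hXY, hXY] at hs
      simp only at hs
      tauto
  refine ⟨_, root a b hab (fun p q h1 h2 h3 h4 h5 => (hcore p q h1 h2 h3 h4 h5).1), ?_⟩
  have := root b a hab.symm (fun p q h1 h2 h3 h4 h5 => (hcore p q h1 h3 h2 h5 h4).2)
  convert this using 1
  funext i
  simp

end Pool.Agent.TH54.FK
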